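import Pool.Agent.Run7.h640.FP.Iface

/-!
Project FP, piece KEEP: the bad component survives if one window is kept.
-/

set_option autoImplicit false

open Finset
open Run7.h640.FP

namespace Pool.Agent.Run7.h85.FP

theorem inc_symm {r : ℕ → ℕ → Prop} {x y : ℕ} (h : Inc r x y) : Inc r y x :=
  ⟨h.1.symm, h.2.2, h.2.1⟩

theorem inc_near {D : ℕ} {r : ℕ → ℕ → Prop} (hr : Band D r) {x y : ℕ} (h : Inc r x y) :
    y < x + D ∧ x < y + D := by
  obtain ⟨h1, h2, h3⟩ := h
  constructor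
  · by_contra hc
    rcases Nat.lt_or_ge x y with h4 | h4
    · exact h2 (hr.far _ _ (by omega) h4)
    · have h5 : x = y := by omega
      exact h1 h5
  · by_contra hc
    rcases Nat.lt_or_ge y x with h4 | h4
    · exact h3 (hr.far _ _ (by omega) h4)
    · have h5 : x = y := by omega
      exact h1 h5

/-- incomparability in equal windows -/
theorem inc_win {R k' k : ℕ} {r' r : ℕ → ℕ → Prop} (hw : Win R r' k' r k) {x y : ℕ}
    (h1 : k ≤ x) (h2 : x < k + R) (h3 : k ≤ y) (h4 : y < k + R) :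
    Inc r' (k' + (x - k)) (k' + (y - k)) ↔ Inc r x y := by
  have e1 := hw (x - k) (y - k) (by omega) (by omega)
  have e2 := hw (y - k) (x - k) (by omega) (by omega)
  have e3 : k + (x - k) = x := by omega
  have e4 : k + (y - k) = y := by omega
  rw [e3, e4] at e1 e2
  unfold Inc
  rw [e1, e2]
  constructor
  · rintro ⟨a, b, c⟩
    exact ⟨fun h => a (by rw [h]), b, c⟩
  · rintro ⟨a, b, c⟩
    exact ⟨fun h => a (by omega), b, c⟩

/-- an isolated edge in equal windows -/
theorem iso_win {D R n n' k k' x y : ℕ} {r' r : ℕ → ℕ → Prop} (hw : Win R r' k' r k)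
    (hr' : Band D r') (hk : k + R ≤ n) (hk' : k' + R ≤ n')
    (hx1 : k ≤ x) (hx2 : x < k + R) (hy1 : k ≤ y) (hy2 : y < k + R)
    (hlo : k' = 0 ∨ (k + D ≤ x ∧ k + D ≤ y))
    (hhi : k' + R = n' ∨ (x + D ≤ k + R ∧ y + D ≤ k + R))
    (hxy : Inc r x y) (hiso : ∀ z, z < n → z ≠ x → z ≠ y → ¬ Inc r x z ∧ ¬ Inc r y z) :
    Feat r' n' := by
  left
  refine ⟨⟨k' + (x - k), by omega⟩, ⟨k' + (y - k), by omega⟩,
    (inc_win hw hx1 hx2 hy1 hy2).2 hxy, ?_⟩
  rintro ⟨z, hz⟩ hzx hzy
  simp only [ne_eq, Fin.mk.injEq] at hzx hzy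
  simp only
  have hin : ∀ w, k ≤ w → w < k + R → (k' = 0 ∨ k + D ≤ w) → (k' + R = n' ∨ w + D ≤ k + R) →
      Inc r' (k' + (w - k)) z → k' ≤ z ∧ z < k' + R := by
    intro w h1 h2 h3 h4 h5
    have h6 := inc_near hr' h5
    constructor
    · rcases h3 with h3 | h3
      · omega
      · omega
    · rcases h4 with h4 | h4
      · omega
      · omega
  have hz2 : ∀ w, k ≤ w → w < k + R → (k' = 0 ∨ k + D ≤ w) → (k' + R = n' ∨ w + D ≤ k + R) →
      Inc r' (k' + (w - k)) z → k + (z - k') < n ∧ k + (z - k') ≠ x ∧ k + (z - k') ≠ y ∧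
        Inc r w (k + (z - k')) := by
    intro w h1 h2 h3 h4 h5
    obtain ⟨h6, h7⟩ := hin w h1 h2 h3 h4 h5
    refine ⟨by omega, by omega, by omega, ?_⟩
    rw [← inc_win hw h1 h2 (by omega) (by omega)]
    have e : k' + (k + (z - k') - k) = z := by omega
    rw [e]
    exact h5
  constructor
  · intro h
    obtain ⟨h1, h2, h3, h4⟩ := hz2 x hx1 hx2 (hlo.imp id fun h => h.1) (hhi.imp id fun h => h.1) h
    exact (hiso _ h1 h2 h3).1 h4
  · intro h
    obtain ⟨h1, h2, h3, h4⟩ := hz2 y hy1 hy2 (hlo.imp id fun h => h.2) (hhi.imp id fun h => h.2) h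
    exact (hiso _ h1 h2 h3).2 h4

theorem prove_KEEP : S_KEEP := by
  intro D R n r hD hDR hRn hr hF
  -- the choice of the window
  have hk0 : ∀ x₀ : ℕ, x₀ < n → ∃ k, k + R ≤ n ∧ (k = 0 ∨ k + R = n ∨ k + 5 * D = x₀) ∧
      (∀ z, z < n → z < x₀ + 3 * D + 1 → x₀ < z + 3 * D + 1 → k ≤ z ∧ z < k + R) ∧
      (k = 0 → x₀ < 5 * D + 1 ∨ k + R = n) ∧ (k + R = n → k = 0 ∨ n + 5 * D ≤ x₀ + R) := by
    intro x₀ hx₀
    refine ⟨min (x₀ - 5 * D) (n - R), ?_, ?_, ?_, ?_, ?_⟩
    · omega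
    · omega
    · intro z h1 h2 h3
      omega
    · omega
    · omega
  rcases hF with ⟨x, y, hxy, hiso⟩ | ⟨a, b, c, hab, hbc, hac⟩ | ⟨x, a, b, c, hxa, hxb, hxc, hab, hac, hbc⟩ |
    ⟨a, b, c, d, hab, hbc, hcd, hac, had, hbd⟩
  · obtain ⟨k, hk, hkc, hkz, hk0', hkR⟩ := hk0 x x.2
    have h1 := inc_near hr hxy
    have hx := hkz x x.2 (by omega) (by omega)
    have hy := hkz y y.2 (by omega) (by omega)
    have hiso' : ∀ z, z < n → z ≠ (x : ℕ) → z ≠ (y : ℕ) → ¬ Inc r x z ∧ ¬ Inc r y z := by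
      intro z hz h2 h3
      exact hiso ⟨z, hz⟩ (fun h => h2 (by rw [← h])) (fun h => h3 (by rw [← h]))
    refine ⟨k, hk, ?_⟩
    intro r' n' k' hr' hL hk' hw
    by_cases c1 : k = 0
    · subst c1
      by_cases c2 : 0 + R = n
      · -- the whole poset is one window
        by_cases c3 : (x : ℕ) + 2 * D ≤ R
        · exact iso_win (k := 0) (k' := 0) hL.bot hr' hk (by have := hL.len'; omega) hx.1 hx.2 hy.1 hy.2
            (Or.inl rfl) (Or.inr ⟨by omega, by omega⟩) hxy hiso'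
        · have e : n - R = 0 := by omega
          have hT := hL.top
          rw [e] at hT
          exact iso_win (k := 0) (k' := n' - R) hT hr' hk (by have := hL.len'; omega) hx.1 hx.2 hy.1 hy.2
            (Or.inr ⟨by omega, by omega⟩) (Or.inl (by have := hL.len'; omega)) hxy hiso'
      · have h2 := hk0' rfl
        exact iso_win (k := 0) (k' := 0) hL.bot hr' hk (by have := hL.len'; omega) hx.1 hx.2 hy.1 hy.2
          (Or.inl rfl) (Or.inr ⟨by omega, by omega⟩) hxy hiso'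
    · by_cases c2 : k + R = n
      · have h2 := hkR c2
        have e : n - R = k := by omega
        have hT := hL.top
        rw [e] at hT
        exact iso_win (k := k) (k' := n' - R) hT hr' hk (by have := hL.len'; omega) hx.1 hx.2 hy.1 hy.2
          (Or.inr ⟨by omega, by omega⟩) (Or.inl (by have := hL.len'; omega)) hxy hiso'
      · have h2 : k + 5 * D = x := by omega
        exact iso_win (k := k) (k' := k') hw hr' hk hk' hx.1 hx.2 hy.1 hy.2
          (Or.inr ⟨by omega, by omega⟩) (Or.inr ⟨by omega, by omega⟩) hxy hiso'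
  · obtain ⟨k, hk, hkc, hkz, -, -⟩ := hk0 a a.2
    have h1 := inc_near hr hab
    have h2 := inc_near hr hac
    have ha := hkz a a.2 (by omega) (by omega)
    have hb := hkz b b.2 (by omega) (by omega)
    have hc := hkz c c.2 (by omega) (by omega)
    refine ⟨k, hk, ?_⟩
    intro r' n' k' hr' hL hk' hw
    right; left
    exact ⟨⟨k' + (a - k), by omega⟩, ⟨k' + (b - k), by omega⟩, ⟨k' + (c - k), by omega⟩,
      (inc_win hw ha.1 ha.2 hb.1 hb.2).2 hab, (inc_win hw hb.1 hb.2 hc.1 hc.2).2 hbc,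
      (inc_win hw ha.1 ha.2 hc.1 hc.2).2 hac⟩
  · obtain ⟨k, hk, hkc, hkz, -, -⟩ := hk0 x x.2
    have h1 := inc_near hr hxa
    have h2 := inc_near hr hxb
    have h3 := inc_near hr hxc
    have hx := hkz x x.2 (by omega) (by omega)
    have ha := hkz a a.2 (by omega) (by omega)
    have hb := hkz b b.2 (by omega) (by omega)
    have hc := hkz c c.2 (by omega) (by omega)
    have nab : (a : ℕ) ≠ b := fun h => hab (Fin.ext h)
    have nac : (a : ℕ) ≠ c := fun h => hac (Fin.ext h)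
    have nbc : (b : ℕ) ≠ c := fun h => hbc (Fin.ext h)
    refine ⟨k, hk, ?_⟩
    intro r' n' k' hr' hL hk' hw
    right; right; left
    refine ⟨⟨k' + (x - k), by omega⟩, ⟨k' + (a - k), by omega⟩, ⟨k' + (b - k), by omega⟩,
      ⟨k' + (c - k), by omega⟩, (inc_win hw hx.1 hx.2 ha.1 ha.2).2 hxa,
      (inc_win hw hx.1 hx.2 hb.1 hb.2).2 hxb, (inc_win hw hx.1 hx.2 hc.1 hc.2).2 hxc, ?_, ?_, ?_⟩
    · intro h
      have := Fin.mk.inj h
      omega
    · intro h
      have := Fin.mk.inj h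
      omega
    · intro h
      have := Fin.mk.inj h
      omega
  · obtain ⟨k, hk, hkc, hkz, -, -⟩ := hk0 a a.2
    have h1 := inc_near hr hab
    have h2 := inc_near hr hbc
    have h3 := inc_near hr hcd
    have ha := hkz a a.2 (by omega) (by omega)
    have hb := hkz b b.2 (by omega) (by omega)
    have hc := hkz c c.2 (by omega) (by omega)
    have hd := hkz d d.2 (by omega) (by omega)
    have nac : (a : ℕ) ≠ c := fun h => hac (Fin.ext h)
    have nad : (a : ℕ) ≠ d := fun h => had (Fin.ext h)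
    have nbd : (b : ℕ) ≠ d := fun h => hbd (Fin.ext h)
    refine ⟨k, hk, ?_⟩
    intro r' n' k' hr' hL hk' hw
    right; right; right
    refine ⟨⟨k' + (a - k), by omega⟩, ⟨k' + (b - k), by omega⟩, ⟨k' + (c - k), by omega⟩,
      ⟨k' + (d - k), by omega⟩, (inc_win hw ha.1 ha.2 hb.1 hb.2).2 hab,
      (inc_win hw hb.1 hb.2 hc.1 hc.2).2 hbc, (inc_win hw hc.1 hc.2 hd.1 hd.2).2 hcd, ?_, ?_, ?_⟩
    · intro h
      have := Fin.mk.inj h
      omega
    · intro h
      have := Fin.mk.inj h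
      omega
    · intro h
      have := Fin.mk.inj h
      omega

end Pool.Agent.Run7.h85.FP
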