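import Pool.Agent.Run7.h640.FP.Iface

/-!
Project FP, pieces PIG (pigeonhole for windows) and RED (shortening).
-/

set_option autoImplicit false

open Finset
open Run7.h640.FP

namespace Pool.Agent.Run7.h85.FP

theorem prove_PIG : S_PIG := by
  classical
  intro D R r hD hr a ha
  obtain ⟨code, hcode⟩ : ∃ code : ℕ → (Fin (2 * R) × Fin D → Bool), ∀ i p, code i p =
      decide (r (i - R + p.1) (i - R + p.1 + 1 + p.2)) := ⟨_, fun _ _ => rfl⟩
  have hcard : (univ : Finset (Fin (2 * R) × Fin D → Bool)).card <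
      (Finset.Icc a (a + 2 ^ (2 * R * D))).card := by
    rw [card_univ, Fintype.card_fun, Fintype.card_prod, Fintype.card_fin, Fintype.card_fin,
      Fintype.card_bool, Nat.card_Icc]
    omega
  obtain ⟨i, hi, j, hj, hij, h⟩ := Finset.exists_ne_map_eq_of_card_lt_of_maps_to hcard
    (f := code) (fun _ _ => mem_coe.2 (mem_univ _))
  rw [mem_Icc] at hi hj
  have key : ∀ i j : ℕ, code i = code j → Win (2 * R) r (i - R) r (j - R) := by
    intro i j h u v hu hv
    rcases Nat.lt_or_ge u v with huv | huv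
    · by_cases hd : v - u - 1 < D
      · have h1 := congrFun h (⟨u, hu⟩, ⟨v - u - 1, hd⟩)
        rw [hcode, hcode, decide_eq_decide] at h1
        simp only at h1
        have e1 : ∀ x : ℕ, x + u + 1 + (v - u - 1) = x + v := fun x => by omega
        rw [e1, e1] at h1
        exact h1
      · constructor
        · intro _
          exact hr.far _ _ (by omega) (by omega)
        · intro _
          exact hr.far _ _ (by omega) (by omega)
    · constructor
      · intro h1
        have := hr.lt _ _ h1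
        omega
      · intro h1
        have := hr.lt _ _ h1
        omega
  rcases Nat.lt_or_ge i j with h1 | h1
  · exact ⟨i, j, hi.1, h1, hj.2, key i j h⟩
  · exact ⟨j, i, hj.1, lt_of_le_of_ne h1 (Ne.symm hij), hi.2, key j i h.symm⟩

theorem win_tr {R : ℕ} {r1 r2 r3 : ℕ → ℕ → Prop} {a b c : ℕ} (h : Win R r1 a r2 b)
    (h' : Win R r2 b r3 c) : Win R r1 a r3 c :=
  fun u v hu hv => (h u v hu hv).trans (h' u v hu hv)

theorem loc_tr {R : ℕ} {r1 r2 r3 : ℕ → ℕ → Prop} {a b c : ℕ} (h : Loc R r1 a r2 b)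
    (h' : Loc R r2 b r3 c) : Loc R r1 a r3 c where
  len' := h.len'
  len := h'.len
  bot := win_tr h.bot h'.bot
  top := win_tr h.top h'.top
  mid := by
    intro t ht
    obtain ⟨s, hs, hw⟩ := h.mid t ht
    obtain ⟨s', hs', hw'⟩ := h'.mid s hs
    exact ⟨s', hs', win_tr hw hw'⟩

theorem loc_rf {R : ℕ} {r : ℕ → ℕ → Prop} {n : ℕ} (h : R ≤ n) : Loc R r n r n where
  len' := h
  len := h
  bot := fun _ _ _ _ => Iff.rfl
  top := fun _ _ _ _ => Iff.rfl
  mid := fun t ht => ⟨t, ht, fun _ _ _ _ => Iff.rfl⟩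

/-- the order after a cut -/
theorem loc_cut {R i j n : ℕ} {r r' : ℕ → ℕ → Prop} (hRi : R ≤ i) (hij : i < j) (hjn : j + R ≤ n)
    (h1 : ∀ u v, u < i + R → v < i + R → (r' u v ↔ r u v))
    (h2 : ∀ u v, i - R ≤ u → i - R ≤ v → (r' u v ↔ r (u + (j - i)) (v + (j - i)))) :
    Loc R r' (n - (j - i)) r n where
  len' := by omega
  len := by omega
  bot := fun u v hu hv => h1 _ _ (by omega) (by omega)
  top := by
    intro u v hu hv
    rw [h2 _ _ (by omega) (by omega)]
    have e : ∀ u, n - (j - i) - R + u + (j - i) = n - R + u := fun u => by omega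
    rw [e, e]
  mid := by
    intro t ht
    rcases Nat.lt_or_ge i t with h | h
    · refine ⟨t + (j - i), by omega, fun u v hu hv => ?_⟩
      rw [h2 _ _ (by omega) (by omega)]
      have e : ∀ u, t + u + (j - i) = t + (j - i) + u := fun u => by omega
      rw [e, e]
    · exact ⟨t, by omega, fun u v hu hv => h1 _ _ (by omega) (by omega)⟩

theorem prove_RED : S_RED := by
  intro hC hP D R n
  induction n using Nat.strong_induction_on with
  | _ n ih =>
  intro k r hD hDR hr hk
  obtain ⟨B, hB⟩ : ∃ B : ℕ, B = 2 ^ (2 * R * D) := ⟨_, rfl⟩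
  by_cases hn : n ≤ 3 * R + 2 * 2 ^ (2 * R * D)
  · exact ⟨r, n, k, hr, loc_rf (by omega), hk, fun _ _ _ _ => Iff.rfl, hn⟩
  · rw [← hB] at hn
    have hstep : ∃ (i j k1 : ℕ) (r1 : ℕ → ℕ → Prop), R ≤ i ∧ i < j ∧ j + R ≤ n ∧ Band D r1 ∧
        (∀ u v, u < i + R → v < i + R → (r1 u v ↔ r u v)) ∧
        (∀ u v, i - R ≤ u → i - R ≤ v → (r1 u v ↔ r (u + (j - i)) (v + (j - i)))) ∧
        k1 + R ≤ n - (j - i) ∧ Win R r1 k1 r k := by
      by_cases hA : k + 2 * R + B ≤ n
      · obtain ⟨i, j, h1, h2, h3, h4⟩ := hP D R r hD hr (k + R) (by omega)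
        rw [← hB] at h3
        obtain ⟨r1, hr1, e1, e2⟩ := hC D R i j r hD hDR hr (by omega) h2 h4
        exact ⟨i, j, k, r1, by omega, h2, by omega, hr1, e1, e2, by omega,
          fun u v hu hv => e1 _ _ (by omega) (by omega)⟩
      · obtain ⟨i, j, h1, h2, h3, h4⟩ := hP D R r hD hr R le_rfl
        rw [← hB] at h3
        obtain ⟨r1, hr1, e1, e2⟩ := hC D R i j r hD hDR hr (by omega) h2 h4
        refine ⟨i, j, k - (j - i), r1, by omega, h2, by omega, hr1, e1, e2, by omega, ?_⟩
        intro u v hu hv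
        rw [e2 _ _ (by omega) (by omega)]
        have e : ∀ u, k - (j - i) + u + (j - i) = k + u := fun u => by omega
        rw [e, e]
    obtain ⟨i, j, k1, r1, hRi, hij, hjn, hr1, e1, e2, hk1, hw1⟩ := hstep
    obtain ⟨r', n', k', hr', hL, hk', hw, hn'⟩ := ih (n - (j - i)) (by omega) k1 r1 hD hDR hr1 hk1
    exact ⟨r', n', k', hr', loc_tr hL (loc_cut hRi hij hjn e1 e2), hk', win_tr hw hw1, hn'⟩

end Pool.Agent.Run7.h85.FP
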